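import Pool.Agent.Helper85.Ell.Dens

namespace Pool.Agent.Results.MP_7826f3_co.CoveringDensity

open Pool.Agent.Helper85.Ell

/-- The infimum of the lower densities of the coverings of the plane by ellipses of diameter `1`
(of arbitrary, possibly different eccentricities) is strictly smaller than `2π/√27`, the
least density of a covering by congruent ellipses. -/
theorem result : thetaVar < ENNReal.ofReal (2 * Real.pi / √27) := main

end Pool.Agent.Results.MP_7826f3_co.CoveringDensity
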